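import Pool.Agent.helper40.FI.Basic

/-!
# Project fi (MP_baa4d7_al), block LA: a counting argument on a finite abelian group with a free action

Paper: FI_paper_helper12.md, BLOCK LA. Basic facts on `lv`, `tw`, `ov` (all proved): `helper40/FI/Basic.lean`.
Every `XXX_stmt` below is a row; its docstring contains a complete proof. Inside the block the group `D` is a `CommGroup`
and sums are `Finset` sums; the interface (`LAD`, row `LAF`) is stated for `Group D` and `finsum`.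
-/

set_option autoImplicit false

namespace Pool.Agent.FI

open Pool.Agent.GR

noncomputable section

/-! ### Definitions -/

/-- `f` is an integer combination of linear characters -/
def LGC {D : Type} [Group D] (f : D → ℂ) : Prop :=
  ∃ m : (D →* ℂˣ) → ℤ, ∀ u, f u = ∑ᶠ l : D →* ℂˣ, (m l : ℂ) * lv l u

/-- THE INTERFACE: the data of block LA (`D` a finite abelian `p`-group, `Z` a proper subgroup, `I` a group of
automorphisms of `D` of order prime to `p`, trivial on `Z` and free outside `Z`). -/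
structure LAD (p : ℕ) (M : Ideal (integralClosure ℤ ℂ)) {D : Type} [Group D] {X : Type}
    (Z : Subgroup D) (I : Subgroup (MulAut D)) (β d : X → D → ℂ) (n : D → ℤ) : Prop where
  set : Setup p M
  odd : p ≠ 2
  com : ∀ a b : D, a * b = b * a
  pg : IsPGroup p D
  ne : Z ≠ ⊤
  cop : ¬ p ∣ Nat.card I
  fz : ∀ t ∈ I, ∀ z ∈ Z, t z = z
  fr : ∀ t ∈ I, ∀ u, u ∉ Z → t u = u → t = 1
  h1 : ∀ χ, LGC (β χ)
  h2 : ∀ χ, ∀ t ∈ I, ∀ u, β χ (t u) = β χ u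
  h3a : ∀ χ u, u ∉ Z → β χ u = (n u : ℂ) * d χ u
  h3b : ∀ u, u ∉ Z → ¬ (p : ℤ) ∣ n u
  h3c : ∀ t ∈ I, ∀ u, u ∉ Z → n (t u) = n u
  h3d : ∀ s : ℕ, ¬ p ∣ s → ∀ u, u ∉ Z → n (u ^ s) = n u
  h4a : ∀ u a, u ∉ Z → (∀ t ∈ I, t u ≠ a) → ∑ᶠ χ, β χ a * (starRingEnd ℂ) (β χ u) = 0
  h4b : ∀ u, u ∉ Z → ∑ᶠ χ, d χ u * (starRingEnd ℂ) (d χ u) = (Nat.card D : ℂ)
  h5 : ∀ χ, ∃ v : Z →* ℂˣ, ∀ (z : Z) (u : D), β χ (z * u) = lv v z * β χ u
  h6 : ∀ χ, ∃ u, u ∉ Z ∧ d χ u ≠ 0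
  h7 : ∀ χ u, u ∉ Z → IsIntegral ℤ (d χ u)

/-- THE INTERFACE: the conclusions (C1), (C2), (C3) of block LA. -/
structure LAC (M : Ideal (integralClosure ℤ ℂ)) {D : Type} [Group D] {X : Type}
    (Z : Subgroup D) (I : Subgroup (MulAut D)) (β d : X → D → ℂ) : Prop where
  c1 : ∀ l₀ : D →* ℂˣ, (∀ t ∈ I, ∀ u, lv l₀ (t u) = lv l₀ u) →
    Nat.card I * {χ : X | ∀ z ∈ Z, ∀ u, β χ (z * u) = lv l₀ z * β χ u}.ncard ≤ (Z.index - 1) + Nat.card I ^ 2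
  c2 : I = ⊥ → ∀ χ, (Nat.card D : ℝ) - Nat.card Z ≤ ∑ᶠ u ∈ {u : D | u ∉ Z}, ‖d χ u‖ ^ 2
  c3 : Z = ⊥ → Nat.card I * Nat.card X = (Nat.card D - 1) + Nat.card I ^ 2 →
    ∀ χ u, u ≠ 1 → ¬ InM M (d χ u)

/-- the same data, `D` a `CommGroup`, with `Finset` sums -/
structure LD (p : ℕ) (M : Ideal (integralClosure ℤ ℂ)) {D : Type} [CommGroup D] {X : Type} [Fintype X]
    (Z : Subgroup D) (I : Subgroup (MulAut D)) (β d : X → D → ℂ) (n : D → ℤ) : Prop where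
  set : Setup p M
  odd : p ≠ 2
  pg : IsPGroup p D
  ne : Z ≠ ⊤
  cop : ¬ p ∣ Nat.card I
  fz : ∀ t ∈ I, ∀ z ∈ Z, t z = z
  fr : ∀ t ∈ I, ∀ u, u ∉ Z → t u = u → t = 1
  h1 : ∀ χ, LGC (β χ)
  h2 : ∀ χ, ∀ t ∈ I, ∀ u, β χ (t u) = β χ u
  h3a : ∀ χ u, u ∉ Z → β χ u = (n u : ℂ) * d χ u
  h3b : ∀ u, u ∉ Z → ¬ (p : ℤ) ∣ n u
  h3c : ∀ t ∈ I, ∀ u, u ∉ Z → n (t u) = n u
  h3d : ∀ s : ℕ, ¬ p ∣ s → ∀ u, u ∉ Z → n (u ^ s) = n u
  h4a : ∀ u a, u ∉ Z → (∀ t ∈ I, t u ≠ a) → ∑ χ, β χ a * (starRingEnd ℂ) (β χ u) = 0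
  h4b : ∀ u, u ∉ Z → ∑ χ, d χ u * (starRingEnd ℂ) (d χ u) = (Nat.card D : ℂ)
  h5 : ∀ χ, ∃ v : Z →* ℂˣ, ∀ (z : Z) (u : D), β χ (z * u) = lv v z * β χ u
  h6 : ∀ χ, ∃ u, u ∉ Z ∧ d χ u ≠ 0
  h7 : ∀ χ u, u ∉ Z → IsIntegral ℤ (d χ u)

/-- the signs: `ε u * n u` is congruent to the fixed number `δ` modulo `p` -/
structure LSg (p : ℕ) {D : Type} [CommGroup D] (Z : Subgroup D) (I : Subgroup (MulAut D)) (n : D → ℤ)
    (δ : ℤ) (ε : D → ℤ) : Prop where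
  pd : ¬ (p : ℤ) ∣ δ
  pm : ∀ u, ε u = 1 ∨ ε u = -1
  cg : ∀ u, u ∉ Z → (p : ℤ) ∣ ε u * n u - δ
  ti : ∀ t ∈ I, ∀ u, u ∉ Z → ε (t u) = ε u
  po : ∀ s : ℕ, ¬ p ∣ s → ∀ u, u ∉ Z → ε (u ^ s) = ε u
  zi : ∀ z ∈ Z, ∀ u, u ∉ Z → ε (z * u) * n (z * u) = ε u * n u

open Classical in
/-- `ε d` outside `Z`, `0` on `Z` -/
def lg {D X : Type} [Group D] (Z : Subgroup D) (ε : D → ℤ) (d : X → D → ℂ) (χ : X) (u : D) : ℂ :=
  if u ∈ Z then 0 else (ε u : ℂ) * d χ u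

theorem lg_of_mem {D X : Type} [Group D] {Z : Subgroup D} {ε : D → ℤ} {d : X → D → ℂ} {χ : X} {u : D}
    (h : u ∈ Z) : lg Z ε d χ u = 0 := if_pos h

theorem lg_of_not_mem {D X : Type} [Group D] {Z : Subgroup D} {ε : D → ℤ} {d : X → D → ℂ} {χ : X} {u : D}
    (h : u ∉ Z) : lg Z ε d χ u = (ε u : ℂ) * d χ u := if_neg h

/-- the properties of `g = lg Z ε d` which are used in the second half of the block -/
structure LG (p : ℕ) {D : Type} [CommGroup D] [Fintype D] {X : Type} [Fintype X]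
    (Z : Subgroup D) (I : Subgroup (MulAut D)) (g : X → D → ℂ) : Prop where
  pr : p.Prime
  pg : IsPGroup p D
  ne : Z ≠ ⊤
  cop : ¬ p ∣ Nat.card I
  fz : ∀ t ∈ I, ∀ z ∈ Z, t z = z
  fr : ∀ t ∈ I, ∀ u, u ∉ Z → t u = u → t = 1
  g0 : ∀ χ, ∀ z ∈ Z, g χ z = 0
  gt : ∀ χ, ∀ t ∈ I, ∀ u, g χ (t u) = g χ u
  gz : ∀ χ, ∃ l₀ : D →* ℂˣ, ∀ z ∈ Z, ∀ u, g χ (z * u) = lv l₀ z * g χ u
  o0 : ∀ u a, u ∉ Z → (∀ t ∈ I, t u ≠ a) → ∑ χ, g χ a * (starRingEnd ℂ) (g χ u) = 0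
  o1 : ∀ u, u ∉ Z → ∀ t ∈ I, ∑ χ, g χ (t u) * (starRingEnd ℂ) (g χ u) = (Nat.card D : ℂ)
  gi : ∀ χ (l l' : D →* ℂˣ), (∀ z ∈ Z, lv l z = lv l' z) →
    ∃ a : ℤ, ∑ u, g χ u * (lv l u⁻¹ - lv l' u⁻¹) = (Nat.card D : ℂ) * a
  gn : ∀ χ, ∃ u, u ∉ Z ∧ g χ u ≠ 0

open Classical in
/-- the `χ` over `l₀` -/
def lX {D X : Type} [Group D] [Fintype X] (Z : Subgroup D) (l₀ : D →* ℂˣ) (g : X → D → ℂ) : Finset X :=
  Finset.univ.filter fun χ => ∀ z ∈ Z, ∀ u, g χ (z * u) = lv l₀ z * g χ u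

theorem mem_lX {D X : Type} [Group D] [Fintype X] {Z : Subgroup D} {l₀ : D →* ℂˣ} {g : X → D → ℂ} {χ : X} :
    χ ∈ lX Z l₀ g ↔ ∀ z ∈ Z, ∀ u, g χ (z * u) = lv l₀ z * g χ u := by
  simp [lX]

/-- `A χ l` is the integer `a(χ; l, l₀)` for the `l` over the restriction of `l₀` to `Z` -/
def LAi {D : Type} [CommGroup D] [Fintype D] [Fintype (D →* ℂˣ)] {X : Type} (Z : Subgroup D) (l₀ : D →* ℂˣ)
    (g : X → D → ℂ) (A : X → (D →* ℂˣ) → ℤ) : Prop :=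
  ∀ χ, ∀ l ∈ ov Z l₀, ∑ u, g χ u * (lv l u⁻¹ - lv l₀ u⁻¹) = (Nat.card D : ℂ) * (A χ l : ℂ)

/-- `l₀` is fixed by `I` -/
def LFx {D : Type} [Group D] (I : Subgroup (MulAut D)) (l₀ : D →* ℂˣ) : Prop :=
  ∀ t ∈ I, ∀ u, lv l₀ (t u) = lv l₀ u

/-! ### Part 1: rationality and integrality -/

/-- ROW LCG. `LGC` is closed under the ring operations.
PROOF. `[Finite (D →* ℂˣ)]` is the instance `lch_finite`; `finsum_eq_sum_of_fintype` (with `Fintype.ofFinite`) turns `∑ᶠ`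
into `∑`. A single character: `m = Pi.single l 1` (or `if · = l then 1 else 0`); `lv l u⁻¹ = lv l⁻¹ u` (`lv_inv`,
`lv_hinv`); constants: `m = c` at `l = 1`. Sum, difference: add, subtract the `m`. Product: `∑ i, ∑ j, m i * m' j * lv (i * j) u` with `lv_hmul`:
`m'' k = ∑ i, m i * m' (i⁻¹ * k)` (reindex `j = i⁻¹ * k`, `Equiv.mulLeft`), or write `f = ∑ i, m i • lv i` and use closure under
finite sums and integer multiples. Conjugate: `(starRingEnd ℂ) (lv l u) = lv l u⁻¹ = lv l⁻¹ u` (`star_lv`), `m'' l = m l⁻¹`.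
Powers, finite sums: induction. -/
def LCG_stmt : Prop := ∀ (D : Type) [CommGroup D] [Finite D],
  (∀ c : ℤ, LGC (fun _ : D => (c : ℂ))) ∧
  (∀ l : D →* ℂˣ, LGC (fun u => lv l u)) ∧
  (∀ l : D →* ℂˣ, LGC (fun u => lv l u⁻¹)) ∧
  (∀ f g : D → ℂ, LGC f → LGC g → LGC (fun u => f u + g u)) ∧
  (∀ f g : D → ℂ, LGC f → LGC g → LGC (fun u => f u - g u)) ∧
  (∀ f g : D → ℂ, LGC f → LGC g → LGC (fun u => f u * g u)) ∧
  (∀ f : D → ℂ, LGC f → LGC (fun u => (starRingEnd ℂ) (f u))) ∧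
  (∀ (f : D → ℂ) (E : ℕ), LGC f → LGC (fun u => f u ^ E)) ∧
  (∀ (X : Type) [Fintype X] (f : X → D → ℂ), (∀ χ, LGC (f χ)) → LGC (fun u => ∑ χ, f χ u))

/-- ROW LCO. Coefficients and values of integer combinations of characters.
PROOF. Write `f u = ∑ l, m l * lv l u` (`finsum_eq_sum_of_fintype`). (1) `∑ u, f u * lv l' u⁻¹ = ∑ l, m l * ∑ u, lv l u *
lv l' u⁻¹ = m l' * |D|` (`sum_lv_lv`). (2) `lv_int`, `IsIntegral.sum`, `IsIntegral.mul`, integers are integral.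
(3) `f u - f 1 = ∑ l, m l * (lv l u - 1)`, each term `InM` (`lv_modM`, `IntAt.intCast`, `InM.mul_left`, `InM.sum`). -/
def LCO_stmt : Prop := ∀ (p : ℕ) (M : Ideal (integralClosure ℤ ℂ)) (D : Type) [CommGroup D] [Fintype D] (f : D → ℂ),
  Setup p M → IsPGroup p D → LGC f →
  (∀ l : D →* ℂˣ, ∃ m : ℤ, ∑ u, f u * lv l u⁻¹ = (Nat.card D : ℂ) * m) ∧
  (∀ u, IsIntegral ℤ (f u)) ∧
  (∀ u, InM M (f u - f 1))

/-- ROW LNU. `|I| n(u)²` is the restriction to `D \ Z` of an integer combination of characters.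
PROOF. LCO (1) for `f = β χ` and `l = 1` (`lv_hone`): integers `c χ` with `∑ a, β χ a = |D| * c χ`. Put
`κ u = ∑ χ, c χ * conj (β χ u)`. It is `LGC` by LCG (constants, conjugates, products, sums). Let `u ∉ Z`. Then
`|D| * κ u = ∑ χ, (∑ a, β χ a) * conj (β χ u) = ∑ a, ∑ χ, β χ a * conj (β χ u)` (`Finset.sum_comm`). By `h4a` the inner sum is `0` unless
`a = t u` for some `t ∈ I`, and `t ↦ t u` is injective on `I` (`t u = t' u` gives `(t'⁻¹ * t) u = u`, so `t = t'` by `fr`), so it is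
`∑ t : I, ∑ χ, β χ (t u) * conj (β χ u)` (`Finset.sum_image` or `Finset.sum_subset`) `= |I| * ∑ χ, β χ u * conj (β χ u)` (`h2`)
`= |I| * n(u)² * ∑ χ, d χ u * conj (d χ u)` (`h3a`, `n u` real) `= |I| * n(u)² * |D|` (`h4b`). Cancel `|D| ≠ 0`. -/
def LNU_stmt : Prop := ∀ (p : ℕ) (M : Ideal (integralClosure ℤ ℂ)) (D : Type) [CommGroup D] [Fintype D]
  (X : Type) [Fintype X] (Z : Subgroup D) (I : Subgroup (MulAut D)) (β d : X → D → ℂ) (n : D → ℤ),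
  LD p M Z I β d n →
  ∃ κ : D → ℂ, LGC κ ∧ ∀ u, u ∉ Z → κ u = (Nat.card I : ℂ) * (n u : ℂ) ^ 2

/-- ROW LEP. The signs.
PROOF. Choose `u₀ ∉ Z` (`Z ≠ ⊤`), `δ = n u₀`; `pd` is `h3b`. Let `κ` be as in LNU. For `u ∉ Z`: `κ u - κ u₀` is `InM` (LCO (3) twice, `InM.sub`), it is
the integer `|I| * (n u ^ 2 - δ ^ 2)`; so by `InM.intCast` `p ∣ |I| * ((n u - δ) * (n u + δ))`, and `p ∤ |I|` (`cop`) gives
`p ∣ n u - δ` or `p ∣ n u + δ`. Let `ε u = 1` if `p ∣ n u - δ`, `-1` otherwise. `pm`, `cg` are clear, `ti`, `po` follow from `h3c`, `h3d`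
because `ε u` depends only on `n u`. `zi`: let `v` be as in `h5`, `z ∈ Z`, `u ∉ Z`, so `z * u ∉ Z`.
`n(zu)² |D| = ∑ χ, β χ (zu) * conj (β χ (zu)) = ∑ χ, β χ u * conj (β χ u) = n(u)² |D|` (`h3a`, `h4b`; `lv v z * conj (lv v z) = 1`: `norm_lv` or
`star_lv`, `lv_inv`; note that `v` depends on `χ`). So `n(zu)² = n(u)²`, hence `ε(zu) n(zu) = ± ε(u) n(u)`. If the sign is `-`, then
`cg` for `zu` and for `u` gives `p ∣ 2δ`, impossible because `p` is odd and `p ∤ δ` (if the sign is `-` and `+` at once there is nothing to prove). -/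
def LEP_stmt : Prop := ∀ (p : ℕ) (M : Ideal (integralClosure ℤ ℂ)) (D : Type) [CommGroup D] [Fintype D]
  (X : Type) [Fintype X] (Z : Subgroup D) (I : Subgroup (MulAut D)) (β d : X → D → ℂ) (n : D → ℤ),
  LD p M Z I β d n → ∃ (δ : ℤ) (ε : D → ℤ), LSg p Z I n δ ε

/-- ROW LIV (elementary number theory).
PROOF. `k = 0`: everything divides. Let `k ≥ 1`, `φ = Nat.totient (p ^ k) = p ^ (k - 1) * (p - 1) ≥ 2`, `c = δ ^ (p ^ k)`,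
`E = (φ - 1) * ((1 + p ^ k) / 2)`; `1 + p ^ k` is even, so `2 * E = (φ - 1) * (1 + p ^ k)` and
`1 + p ^ k + 2 * E = φ * (1 + p ^ k)`. Let `p ∣ s - δ`. Then `p ∤ s`, `p ^ (k + 1) ∣ s ^ (p ^ k) - δ ^ (p ^ k)`
(`dvd_sub_pow_of_dvd_sub`), so modulo `p ^ k`: `s * c * (s ^ 2) ^ E = s * s ^ (p ^ k) * s ^ (2 * E) = s ^ (1 + p ^ k + 2 * E) = (s ^ φ) ^ (1 + p ^ k) = 1`
(Euler: `ZMod.pow_totient`, or `Int.ModEq.pow_card_sub_one_eq_one`-type lemmas; the cast of `s` to `ZMod (p ^ k)` is a unit). -/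
def LIV_stmt : Prop := ∀ (p k : ℕ) (δ : ℤ), p.Prime → p ≠ 2 → ¬ (p : ℤ) ∣ δ →
  ∃ (c : ℤ) (E : ℕ), ∀ s : ℤ, (p : ℤ) ∣ s - δ → (p : ℤ) ^ k ∣ s * c * (s ^ 2) ^ E - 1

/-- ROW LSM. Modulo `|D|` times an algebraic integer, `ε d` is a combination of characters with denominator a power of `|I|`.
PROOF. `|D| = p ^ k` (`IsPGroup.exists_card_eq`, needs `Fact p.Prime` from `set.pr`). Let `c`, `E` be as in LIV for `δ`, `κ` as in LNU and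
`F u = c * β χ u * κ u ^ E`; it is `LGC` by LCG. Let `u ∉ Z`, `s = ε u * n u`, so `s ^ 2 = n u ^ 2` (`pm`), and
`β χ u = n u * d χ u = s * (ε u * d χ u)` (`ε u * ε u = 1`), `F u / |I| ^ E = c * β χ u * (n u ^ 2) ^ E = (s * c * (s ^ 2) ^ E) * (ε u * d χ u)`
(`|I| ≠ 0`), and `s * c * (s ^ 2) ^ E = 1 + |D| * q`, `q` an integer (LIV, `cg`). So
`(lg Z ε d χ u - F u / |I| ^ E) / |D| = - q * ε u * d χ u` is integral by `h7`. -/
def LSM_stmt : Prop := ∀ (p : ℕ) (M : Ideal (integralClosure ℤ ℂ)) (D : Type) [CommGroup D] [Fintype D]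
  (X : Type) [Fintype X] (Z : Subgroup D) (I : Subgroup (MulAut D)) (β d : X → D → ℂ) (n : D → ℤ)
  (δ : ℤ) (ε : D → ℤ), LD p M Z I β d n → LSg p Z I n δ ε →
  ∀ χ, ∃ (F : D → ℂ) (E : ℕ), LGC F ∧
    ∀ u, u ∉ Z → IsIntegral ℤ ((lg Z ε d χ u - F u / (Nat.card I : ℂ) ^ E) / (Nat.card D : ℂ))

/-- ROW LIA. The coefficient differences of `ε d` are in the local ring.
PROOF. `F`, `E` as in LSM. `w u = lv l u⁻¹ - lv l' u⁻¹` is `0` for `u ∈ Z`. So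
`lg u * w u = F u / |I| ^ E * w u + |D| * ρ u * w u` for all `u`, with `ρ u = (lg u - F u / |I| ^ E) / |D|` for `u ∉ Z` and `ρ u = 0` for
`u ∈ Z`; `ρ u` is integral. By LCO (1) `∑ u, F u * w u = |D| * (m - m')`, `m`, `m'` integers. So the quotient is
`(m - m') / |I| ^ E + ∑ u, ρ u * w u`, and `|I|⁻¹` is `IntAt` (`InM.natCast`, `cop`, `IntAt.inv`), `ρ u * w u` is integral (`lv_int`),
`IntAt.of_isIntegral`, `IntAt.intCast`. -/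
def LIA_stmt : Prop := ∀ (p : ℕ) (M : Ideal (integralClosure ℤ ℂ)) (D : Type) [CommGroup D] [Fintype D]
  (X : Type) [Fintype X] (Z : Subgroup D) (I : Subgroup (MulAut D)) (β d : X → D → ℂ) (n : D → ℤ)
  (δ : ℤ) (ε : D → ℤ), LD p M Z I β d n → LSg p Z I n δ ε →
  ∀ χ (l l' : D →* ℂˣ), (∀ z ∈ Z, lv l z = lv l' z) →
    IntAt M ((∑ u, lg Z ε d χ u * (lv l u⁻¹ - lv l' u⁻¹)) / (Nat.card D : ℂ))

/-- ROW LRU (roots of unity).
PROOF. `k = 0`: the index set is empty (`p ∣ 0`), the sum is `0`. `k ≥ 1`: the sum is `∑ s < p ^ k, w ^ s` minus the sum over the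
multiples `s = p * j`, `j < p ^ (k - 1)`. `(w - 1) * ∑ s < N, w ^ s = w ^ N - 1` (`geom_sum_mul`): for `w ^ N = 1` the sum is `N` if
`w = 1` and `0` otherwise. Apply this to `w`, `N = p ^ k` and to `w ^ p`, `N = p ^ (k - 1)`. -/
def LRU_stmt : Prop := ∀ (p k : ℕ) (w : ℂ), p.Prime → w ^ p ^ k = 1 →
  ∃ m : ℤ, ∑ s ∈ (Finset.range (p ^ k)).filter (fun s => ¬ p ∣ s), w ^ s = (m : ℂ)

/-- ROW LRA. The coefficient differences of `ε d` are rational.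
PROOF. `|D| = p ^ k` (`IsPGroup.exists_card_eq`); `U = (Finset.range (p ^ k)).filter (fun s => ¬ p ∣ s)`; `1 ∈ U` because `k ≥ 1` (`Z ≠ ⊤`, so `D` is not
trivial), so `U` is not empty. Let `P u = β χ u * (lv l u⁻¹ - lv l' u⁻¹)`; it is `LGC` by LCG. For `u ∉ Z`: `lg u * (lv l u⁻¹ - lv l' u⁻¹) =
(ε u / n u) * P u` (`h3a`, `n u ≠ 0` by `h3b`). So the sum is `S = ∑ u ∈ univ.filter (· ∉ Z), (ε u / n u) * P u`. For `s ∈ U` the map `u ↦ u ^ s` is a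
permutation of `D` (`powCoprime`, `s` prime to `|D|`) which preserves `Z` and its complement (if `u ^ s ∈ Z` then `u ∈ Z`: `u` is a power of `u ^ s`), and
`ε`, `n` are unchanged (`po`, `h3d`): `S = ∑ u ∉ Z, (ε u / n u) * P (u ^ s)`. Sum over `s ∈ U`: `|U| * S = ∑ u ∉ Z, (ε u / n u) * ∑ s ∈ U, P (u ^ s)`.
With `P u = ∑ j, c j * lv j u` the inner sum is `∑ j, c j * ∑ s ∈ U, (lv j u) ^ s` (`lv_pow`), an integer by LRU (`lv_pow_card`). So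
`|U| * S` is rational and `|U| ≠ 0`. -/
def LRA_stmt : Prop := ∀ (p : ℕ) (M : Ideal (integralClosure ℤ ℂ)) (D : Type) [CommGroup D] [Fintype D]
  (X : Type) [Fintype X] (Z : Subgroup D) (I : Subgroup (MulAut D)) (β d : X → D → ℂ) (n : D → ℤ)
  (δ : ℤ) (ε : D → ℤ), LD p M Z I β d n → LSg p Z I n δ ε →
  ∀ χ (l l' : D →* ℂˣ), ∃ q : ℚ, ∑ u, lg Z ε d χ u * (lv l u⁻¹ - lv l' u⁻¹) = (q : ℂ)

/-- ROW LIN. The coefficient differences of `ε d` are integers.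
PROOF. `S = ∑ u, lg u * (lv l u⁻¹ - lv l' u⁻¹)` is integral over `ℤ` (`h7`, `lv_int`, integers) and rational (LRA), so it is an integer `N`
(`IsInteger_of_is_root_of_monic` / `IsIntegrallyClosed.isIntegral_iff`: `ℤ` is integrally closed in `ℚ`; pull integrality back along the injective map
`ℚ → ℂ`, `isIntegral_algebraMap_iff`). `|D| = p ^ k`. By LIA `N / p ^ k` is `IntAt`. Then `p ^ k ∣ N`: by induction on `j ≤ k`, `p ^ j ∣ N`: if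
`N = p ^ j * N'` with `j < k` then `N' = (N / p ^ k) * p ^ (k - j)` is `InM` (`InM.prime_mem`, `InM.mul_left`), so `p ∣ N'` (`InM.intCast`). -/
def LIN_stmt : Prop := ∀ (p : ℕ) (M : Ideal (integralClosure ℤ ℂ)) (D : Type) [CommGroup D] [Fintype D]
  (X : Type) [Fintype X] (Z : Subgroup D) (I : Subgroup (MulAut D)) (β d : X → D → ℂ) (n : D → ℤ)
  (δ : ℤ) (ε : D → ℤ), LD p M Z I β d n → LSg p Z I n δ ε →
  ∀ χ (l l' : D →* ℂˣ), (∀ z ∈ Z, lv l z = lv l' z) →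
    ∃ a : ℤ, ∑ u, lg Z ε d χ u * (lv l u⁻¹ - lv l' u⁻¹) = (Nat.card D : ℂ) * a

/-- ROW LGG. `g = lg Z ε d` has the properties `LG`.
PROOF. `pr`, `pg`, `ne`, `cop`, `fz`, `fr`: the same fields. `g0`: definition. For `u ∉ Z`: `n u ≠ 0` and, with `s u = ε u * n u ≠ 0`, `g χ u = ε u * d χ u =
β χ u / s u` (`h3a`, `ε u * ε u = 1`). `gt`: for `u ∈ Z` it is `fz`; for `u ∉ Z` also `t u ∉ Z` (if `t u = z ∈ Z` then `u = t⁻¹ z = z`, `t⁻¹ ∈ I`), and `β χ`,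
`s` are invariant (`h2`, `ti`, `h3c`). `gz`: `v` from `h5`, `l₀` its extension (`exists_ext`); for `u ∈ Z` both sides are `0`; for `u ∉ Z`:
`g χ (z * u) = β χ (z * u) / s (z * u) = lv v z * β χ u / s u` (`zi`). `o0`: if `a ∈ Z` all terms are `0`; if `a ∉ Z` the sum is
`(s a * s u)⁻¹ * ∑ χ, β χ a * conj (β χ u) = 0` (`h4a`; `conj` of an integer is the integer). `o1`: `g χ (t u) = g χ u` (`gt`), `g χ u * conj (g χ u) = d χ u * conj (d χ u)`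
(`ε u ^ 2 = 1`), `h4b`. `gi`: LIN. `gn`: `h6`, `ε u ≠ 0`. -/
def LGG_stmt : Prop := ∀ (p : ℕ) (M : Ideal (integralClosure ℤ ℂ)) (D : Type) [CommGroup D] [Fintype D]
  (X : Type) [Fintype X] (Z : Subgroup D) (I : Subgroup (MulAut D)) (β d : X → D → ℂ) (n : D → ℤ)
  (δ : ℤ) (ε : D → ℤ), LD p M Z I β d n → LSg p Z I n δ ε → LG p Z I (lg Z ε d)

/-! ### Part 2: counting -/

/-- ROW LFR. `I` acts freely on the characters `l ≠ l₀` over `l₀`.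
PROOF. Suppose `t ≠ 1`. Put `k = l * l₀⁻¹`: `lv k z = 1` for `z ∈ Z` (`mem_ov`) and `lv k (t u) = lv k u` for all `u`. Let `f : D →* D`, `f u = u⁻¹ * t u`
(a homomorphism, `D` is commutative; e.g. `MonoidHom.mk'`). Its kernel is `Z`: `⊇` is `fz`, `⊆` is `fr` (`t ≠ 1`). So
`Nat.card f.range = Z.index` (`Subgroup.index_ker`) and `Nat.card f.range * Nat.card Z = Nat.card D` (`Subgroup.index_mul_card`).
`f.range ⊓ Z = ⊥`: if `u⁻¹ * t u = z ∈ Z`, then `t u = u * z`, by induction `(t ^ j) u = u * z ^ j` (`t z = z`), with `j = orderOf t`: `z ^ orderOf t = 1`;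
`orderOf t ∣ |I|` is prime to `p` (`cop`, `orderOf_dvd_natCard` for the element `⟨t, _⟩ : I`, `Subgroup.orderOf_coe`) and `z` has `p`-power order (`pg`), so `z = 1`.
So the map `f.range × Z → D`, `(a, z) ↦ a * z` is injective, hence bijective by counting, and `lv k` is `1` on `f.range`
(`lv k (u⁻¹ * t u) = 1`) and on `Z`: `lv k = 1` everywhere, `l = l₀` (`lv_inj`). Contradiction. -/
def LFR_stmt : Prop := ∀ (p : ℕ) (D : Type) [CommGroup D] [Fintype D] [Fintype (D →* ℂˣ)]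
  (X : Type) [Fintype X] (Z : Subgroup D) (I : Subgroup (MulAut D)) (g : X → D → ℂ) (l₀ l : D →* ℂˣ) (t : MulAut D),
  LG p Z I g → LFx I l₀ → l ∈ ov Z l₀ → l ≠ l₀ → t ∈ I → tw t l = l → t = 1

/-- ROW LGK. The kernel of the sum over the `χ` over `l₀`.
PROOF. (1) For `χ : X` and `a : D`: `∑ z : Z, lv l₀ z⁻¹ * g χ (z * a) = |Z| * g χ a` if `χ ∈ lX Z l₀ g`, and `= 0` otherwise. Indeed, if `χ ∈ lX Z l₀ g`, every term is
`g χ a` (`mem_lX`, `lv_inv`, `lv_ne`). Otherwise let `l₁` be the character of `gz`; then `l₁ ≠ l₀` on `Z`, and the sum is `(∑ z : Z, lv l₀ z⁻¹ * lv l₁ z) * g χ a`, and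
`∑ z : Z, lv l₁ z * lv l₀ z⁻¹ = 0` (`sum_lv` for the character `(l₁ * l₀⁻¹).comp Z.subtype` of the group `Z`, which is not `1`).
(2) So `|Z| * ∑ χ ∈ lX, g χ a * conj (g χ u) = ∑ z : Z, lv l₀ z⁻¹ * ∑ χ, g χ (z * a) * conj (g χ u)`, the inner sum over all `χ` (`Finset.sum_comm`).
(3) `∑ χ, g χ b * conj (g χ u) = |D| * ∑ t : I, if b = t u then 1 else 0` for `u ∉ Z` and all `b`: both sides are `0` if `b` is not in the orbit (`o0`); if `b = t u` then exactly one `t` contributes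
(`fr`: `t u = t' u` gives `(t'⁻¹ * t) u = u`), `o1`. (4) Put `b = z * a`; `z * a = t u` iff `a = z⁻¹ * t u`. Multiply by `F a`, sum over `a`, exchange the sums; `∑ a, F a * (if a = z⁻¹ * t u then 1 else 0) =
F (z⁻¹ * t u)`. Divide by `|Z| ≠ 0`. -/
def LGK_stmt : Prop := ∀ (p : ℕ) (D : Type) [CommGroup D] [Fintype D] [Fintype (D →* ℂˣ)]
  (X : Type) [Fintype X] (Z : Subgroup D) [Fintype Z] (I : Subgroup (MulAut D)) [Fintype I] (g : X → D → ℂ) (l₀ : D →* ℂˣ),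
  LG p Z I g → ∀ u, u ∉ Z → ∀ F : D → ℂ,
    ∑ a, F a * ∑ χ ∈ lX Z l₀ g, g χ a * (starRingEnd ℂ) (g χ u) =
      (Nat.card D : ℂ) / (Nat.card Z : ℂ) * ∑ z : Z, ∑ t : I, lv l₀ (z : D)⁻¹ * F ((z : D)⁻¹ * (t : MulAut D) u)

/-- ROW LGM (Gram matrix).
PROOF. Let `W l u = lv l u⁻¹ - lv l₀ u⁻¹`, so `∑ u, g χ u * W l u = |D| * A χ l` (`LAi`), and `conj (W l' u) = lv l' u - lv l₀ u` (`star_lv`); both vanish for `u ∈ Z` if
`l, l' ∈ ov Z l₀`. As `A χ l'` is an integer, `|D| * A χ l' = conj (∑ u, g χ u * W l' u) = ∑ u, conj (g χ u) * (lv l' u - lv l₀ u)`. So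
`|D|² * ∑ χ ∈ lX, A χ l * A χ l' = ∑ u, (lv l' u - lv l₀ u) * ∑ a, W l a * ∑ χ ∈ lX, g χ a * conj (g χ u)`. For `u ∈ Z` the term is `0` (first factor); for `u ∉ Z` LGK with
`F = W l`: `W l (z⁻¹ * b) = lv l₀ z * W l b` for `z ∈ Z` (`lv l z = lv l₀ z`), so `lv l₀ z⁻¹ * W l (z⁻¹ * t u) = W l (t u)` and the inner sum is `|D| * ∑ t : I, W l (t u)`
(the sum over `z` gives `|Z|`). So the total is `|D| * ∑ t : I, ∑ u, (lv l' u - lv l₀ u) * (lv l (t u)⁻¹ - lv l₀ (t u)⁻¹)` (extended over all `u`). Here `(t u)⁻¹ = t u⁻¹`,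
`lv l (t u⁻¹) = lv (tw t l) u⁻¹` and `lv l₀ (t u⁻¹) = lv l₀ u⁻¹` (`LFx`). By `sum_lv_lv` the sum over `u` is `|D| * ([l' = tw t l] - [l' = l₀] - [l₀ = tw t l] + 1)`, and `l' ≠ l₀`,
`tw t l ≠ l₀` (`tw t l₀ = l₀` by `LFx` and `tw_injective`). So it is `|D| * ([tw t l = l'] + 1)`. Sum over `t`, cancel `|D|²`, `Int.cast_injective`. -/
def LGM_stmt : Prop := ∀ (p : ℕ) (D : Type) [CommGroup D] [Fintype D] [Fintype (D →* ℂˣ)]
  (X : Type) [Fintype X] (Z : Subgroup D) (I : Subgroup (MulAut D)) (g : X → D → ℂ) (l₀ : D →* ℂˣ)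
  (A : X → (D →* ℂˣ) → ℤ), LG p Z I g → LFx I l₀ → LAi Z l₀ g A →
  ∀ l ∈ ov Z l₀, ∀ l' ∈ ov Z l₀, l ≠ l₀ → l' ≠ l₀ →
    ∑ χ ∈ lX Z l₀ g, A χ l * A χ l' = (Nat.card {t : I // tw (t : MulAut D) l = l'} : ℤ) + Nat.card I

/-- ROW LFI (Fourier inversion).
PROOF. `c l = (∑ u, g χ u * lv l u⁻¹) / |D|`. By `sum_hlv_lv` `g χ u = ∑ l, c l * lv l u` (`∑ l, ∑ v, g χ v * lv l v⁻¹ * lv l u = ∑ v, g χ v * |D| [u = v]`).
If `l ∉ ov Z l₀` there is `z ∈ Z` with `lv l z ≠ lv l₀ z`; substituting `u ↦ z * u` in `c l`: `c l = lv l₀ z * lv l z⁻¹ * c l` (`mem_lX`), so `c l = 0`. For `l ∈ ov Z l₀`: `c l = c l₀ + A χ l`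
(`LAi`). So `g χ u = c l₀ * ∑ l ∈ ov Z l₀, lv l u + ∑ l ∈ ov Z l₀, A χ l * lv l u`, and the first sum is `0` for `u ∉ Z` (`sum_ov`). -/
def LFI_stmt : Prop := ∀ (D : Type) [CommGroup D] [Fintype D] [Fintype (D →* ℂˣ)]
  (X : Type) [Fintype X] (Z : Subgroup D) (g : X → D → ℂ) (l₀ : D →* ℂˣ) (A : X → (D →* ℂˣ) → ℤ), LAi Z l₀ g A →
  ∀ χ ∈ lX Z l₀ g, ∀ u, u ∉ Z → g χ u = ∑ l ∈ ov Z l₀, (A χ l : ℂ) * lv l u

/-- ROW LQ0 (the quadratic form; elementary).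
PROOF. Write `m = |s|`, `h = |O| ≥ 1`, `S₁ = ∑ a`, `S₂ = ∑ a²` over `s`. `∑ i ∈ s, ∑ j ∈ s, (a i - a j)² = 2 * (m * S₂ - S₁²)` (expand). The terms with `i ∈ O`, `j ∈ O` are `0`; keeping only the pairs
(`i ∈ O`, `j ∉ O`) and (`i ∉ O`, `j ∈ O`): `∑∑ ≥ 2 * ∑ i ∈ O, ∑ j ∈ s \ O, (e - a j)² = 2 * h * ∑ j ∈ s, (e - a j)²` (the terms `j ∈ O` are `0`). So
`(m + h) * S₂ - S₁² ≥ h * S₂ + h * ∑ j ∈ s, (e - a j)² = h * ∑ j ∈ s, (a j ^ 2 + (e - a j) ^ 2) ≥ h * m`, each term being `≥ 1` (`a j` and `e - a j` are not both `0` since `e ≠ 0`).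
Equality: every term of the last sum is `1`; for `j ∈ O` it is `e²`, so `e = ±1` (`O` is not empty), and for the others `a j = 0` or `a j = e`. Let `T = {j ∈ s | a j = e} ⊇ O`, `r = |T|`:
`S₂ = r`, `S₁² = r²`, `(m + h) * r - r² = m * h`, i.e. `(r - h) * (m - r) = 0`: `T = O` or `T = s` (`Finset.eq_of_subset_of_card_le`). -/
def LQ0_stmt : Prop := ∀ (ι : Type) [DecidableEq ι] (s O : Finset ι) (a : ι → ℤ) (e : ℤ),
  O ⊆ s → O.Nonempty → e ≠ 0 → (∀ i ∈ O, a i = e) →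
  ((s.card : ℤ) * O.card ≤ ((s.card : ℤ) + O.card) * ∑ i ∈ s, a i ^ 2 - (∑ i ∈ s, a i) ^ 2) ∧
  (((s.card : ℤ) + O.card) * ∑ i ∈ s, a i ^ 2 - (∑ i ∈ s, a i) ^ 2 = (s.card : ℤ) * O.card →
    (e = 1 ∨ e = -1) ∧ ((∀ i ∈ s, a i = e) ∨ (∀ i ∈ s, i ∉ O → a i = 0)))

/-- ROW LPC (one `χ`).
PROOF. `A χ l₀ = 0` (`LAi` for `l = l₀`). If `A χ l = 0` for all `l ∈ ov Z l₀` then `g χ u = 0` for all `u ∉ Z` (LFI), contradicting `gn`. So there is `l₁ ∈ ov Z l₀`, `l₁ ≠ l₀`, with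
`e = A χ l₁ ≠ 0`. `A χ (tw t l) = A χ l` for `t ∈ I`, `l ∈ ov Z l₀`: `∑ u, g χ u * (lv l (t u⁻¹) - lv l₀ u⁻¹) = ∑ u, g χ (t u) * (lv l (t u)⁻¹ - lv l₀ (t u)⁻¹)` (`gt`, `LFx`) `= ∑ u, g χ u * (lv l u⁻¹ - lv l₀ u⁻¹)`
(`Equiv.sum_comp t.toEquiv`); note `tw t l ∈ ov Z l₀` (`fz`). Let `s = (ov Z l₀).erase l₀`, `|s| = Z.index - 1` (`card_ov`, `self_mem_ov`, `Z.index ≥ 1`), and `O` = the image of `I` under `t ↦ tw t l₁`: `O ⊆ s`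
(`tw t l₁ ≠ l₀` since `tw t l₀ = l₀` and `tw_injective`), `|O| = |I|`, because `tw t l₁ = tw t' l₁` gives `tw (t * t'⁻¹) l₁ = l₁` (`tw_mul`), so `t = t'` by LFR. `a l = A χ l = e` on `O`. Apply LQ0; the sums over `s` and over `ov Z l₀`
agree (`A χ l₀ = 0`, `Finset.sum_erase`). -/
def LPC_stmt : Prop := ∀ (p : ℕ) (D : Type) [CommGroup D] [Fintype D] [Fintype (D →* ℂˣ)]
  (X : Type) [Fintype X] (Z : Subgroup D) (I : Subgroup (MulAut D)) (g : X → D → ℂ) (l₀ : D →* ℂˣ)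
  (A : X → (D →* ℂˣ) → ℤ), LG p Z I g → LFx I l₀ → LAi Z l₀ g A →
  ∀ χ ∈ lX Z l₀ g,
    (((Z.index : ℤ) - 1) * Nat.card I ≤
      ((Z.index : ℤ) - 1 + Nat.card I) * ∑ l ∈ ov Z l₀, A χ l ^ 2 - (∑ l ∈ ov Z l₀, A χ l) ^ 2) ∧
    (((Z.index : ℤ) - 1 + Nat.card I) * ∑ l ∈ ov Z l₀, A χ l ^ 2 - (∑ l ∈ ov Z l₀, A χ l) ^ 2 =
      ((Z.index : ℤ) - 1) * Nat.card I →
      ∃ e : ℤ, (e = 1 ∨ e = -1) ∧ ((∀ l ∈ ov Z l₀, l ≠ l₀ → A χ l = e) ∨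
        ∃ l₁ ∈ ov Z l₀, l₁ ≠ l₀ ∧ (∀ t ∈ I, A χ (tw t l₁) = e) ∧
          ∀ l ∈ ov Z l₀, (∀ t ∈ I, tw t l₁ ≠ l) → A χ l = 0))

/-- ROW LTO (the total).
PROOF. `m = Z.index - 1`, `s = (ov Z l₀).erase l₀`, `|s| = m` (`card_ov`), `A χ l₀ = 0` (`LAi` for `l = l₀`), so all sums may be taken over `s`. LGM: for `l ∈ s`: `∑ χ ∈ lX, A χ l ^ 2 = 1 + |I|`, because the only `t ∈ I` with `tw t l = l` is `1`
(LFR, `tw_one`). For the square of the sum: `∑ χ ∈ lX, (∑ l ∈ s, A χ l)² = ∑ l ∈ s, ∑ l' ∈ s, (#{t : I | tw t l = l'} + |I|) = m * |I| + m² * |I|`, because for `l ∈ s` every `t : I` has `tw t l ∈ s` (`fz`; `tw t l₀ = l₀`,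
`tw_injective`), so `∑ l' ∈ s, #{t | tw t l = l'} = |I|` (`Finset.card_eq_sum_card_fiberwise`). Total: `(m + |I|) * m * (1 + |I|) - m * |I| - m² * |I| = m * (m + |I|²)`. -/
def LTO_stmt : Prop := ∀ (p : ℕ) (D : Type) [CommGroup D] [Fintype D] [Fintype (D →* ℂˣ)]
  (X : Type) [Fintype X] (Z : Subgroup D) (I : Subgroup (MulAut D)) (g : X → D → ℂ) (l₀ : D →* ℂˣ)
  (A : X → (D →* ℂˣ) → ℤ), LG p Z I g → LFx I l₀ → LAi Z l₀ g A →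
  ∑ χ ∈ lX Z l₀ g, (((Z.index : ℤ) - 1 + Nat.card I) * ∑ l ∈ ov Z l₀, A χ l ^ 2 - (∑ l ∈ ov Z l₀, A χ l) ^ 2) =
    ((Z.index : ℤ) - 1) * (((Z.index : ℤ) - 1) + (Nat.card I : ℤ) ^ 2)

/-- ROW LC1.
PROOF. `gi` and choice give `A` with `LAi Z l₀ g A` (for `l ∈ ov Z l₀` the hypothesis of `gi` is `mem_ov`; elsewhere `0`). LPC (first part) summed over `χ ∈ lX` and LTO:
`|lX| * m * |I| ≤ m * (m + |I|²)` with `m = Z.index - 1 > 0` (`Z ≠ ⊤`: `Subgroup.index_eq_one`, finite index). Cancel `m`. -/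
def LC1_stmt : Prop := ∀ (p : ℕ) (D : Type) [CommGroup D] [Fintype D] [Fintype (D →* ℂˣ)]
  (X : Type) [Fintype X] (Z : Subgroup D) (I : Subgroup (MulAut D)) (g : X → D → ℂ) (l₀ : D →* ℂˣ),
  LG p Z I g → LFx I l₀ → Nat.card I * (lX Z l₀ g).card ≤ (Z.index - 1) + Nat.card I ^ 2

/-- ROW LC2.
PROOF. `l₀` from `gz`, so `χ ∈ lX Z l₀ g`; `LFx I l₀` because `I = ⊥`; `A` as in LC1. Put `h u = ∑ l ∈ ov Z l₀, A χ l * lv l u`; `h = g χ` outside `Z` (LFI) and for `z ∈ Z` `h z = lv l₀ z * ∑ l ∈ ov Z l₀, A χ l`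
(`mem_ov`). Parseval: `∑ u, ‖h u‖² = |D| * ∑ l ∈ ov Z l₀, (A χ l)²` (`‖h u‖² = h u * conj (h u)`, `star_lv`, `sum_lv_lv`). So
`∑ u, ‖g χ u‖² = ∑ u ∉ Z, ‖h u‖² = |D| * ∑ A² - |Z| * (∑ A)²` (`g0`, `norm_lv`) `= |Z| * (Z.index * ∑ A² - (∑ A)²) ≥ |Z| * (Z.index - 1) = |D| - |Z|`
by LPC with `Nat.card I = 1` (`Subgroup.card_mul_index`). -/
def LC2_stmt : Prop := ∀ (p : ℕ) (D : Type) [CommGroup D] [Fintype D] [Fintype (D →* ℂˣ)]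
  (X : Type) [Fintype X] (Z : Subgroup D) (I : Subgroup (MulAut D)) (g : X → D → ℂ),
  LG p Z I g → I = ⊥ → ∀ χ, (Nat.card D : ℝ) - Nat.card Z ≤ ∑ u, ‖g χ u‖ ^ 2

/-- ROW LC3.
PROOF. Take `l₀ = 1`; `LFx` is clear, `lX ⊥ 1 g` is everything (`z = 1`), `ov ⊥ 1` is everything, `Z.index = |D|` (`Subgroup.index_bot`). `A` as in LC1. LPC, LTO and the hypothesis: the numbers `LPC left side ≤ right side` have the same sum over all `χ`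
(`|X| * m * |I| = m * (m + |I|²)`, `m = |D| - 1`), so equality holds for every `χ` (`Finset.sum_eq_sum_iff_of_le`). Case 1: `A χ l = e` for `l ≠ 1`, `A χ 1 = 0` (`LAi` for `l = 1`): by LFI and `sum_hlv` (or `sum_ov`) `g χ u = e * (0 - 1) = ∓ 1`, not `InM` (`InM.not_one`, `InM.neg`).
Case 2: `g χ u = e * ∑ t : I, lv l₁ (t u)` (the characters `tw t l₁`, `t ∈ I`, are distinct by LFR and the others have coefficient `0`; LFI); every `lv l₁ (t u) - 1` is `InM` (`lv_modM`), so if `g χ u` were `InM` then `e * |I|` would be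
`InM`, so `p ∣ |I|` (`InM.intCast`), contradicting `cop`. -/
def LC3_stmt : Prop := ∀ (p : ℕ) (M : Ideal (integralClosure ℤ ℂ)) (D : Type) [CommGroup D] [Fintype D] [Fintype (D →* ℂˣ)]
  (X : Type) [Fintype X] (Z : Subgroup D) (I : Subgroup (MulAut D)) (g : X → D → ℂ),
  Setup p M → LG p Z I g → Z = ⊥ → Nat.card I * Nat.card X = (Nat.card D - 1) + Nat.card I ^ 2 →
  ∀ χ u, u ≠ 1 → ¬ InM M (g χ u)

/-- ROW LAF (the interface).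
PROOF. `letI : CommGroup D := { ‹Group D› with mul_comm := h.com }`, `Fintype.ofFinite` for `D`, `X`, `D →* ℂˣ` (`lch_finite`), `finsum_eq_sum_of_fintype`: the data give `LD p M Z I β d n`. LEP: `δ`, `ε`; LGG: `LG p Z I (lg Z ε d)`.
`c1`: LC1 and `{χ | ∀ z ∈ Z, ∀ u, β χ (z * u) = lv l₀ z * β χ u} ⊆ lX Z l₀ (lg Z ε d)`: for `u ∉ Z` `lg χ u = β χ u / (ε u * n u)` and `zi`; for `u ∈ Z` both sides are `0` (`Set.ncard_le_ncard`, `Set.ncard_coe_finset`).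
`c2`: LC2; for `u ∉ Z` `‖lg χ u‖ = ‖d χ u‖` (`pm`), for `u ∈ Z` it is `0` (`finsum_mem_eq_sum_filter` or `finsum_mem_def`). `c3`: LC3; `lg χ u = ε u * d χ u`, so if `d χ u` is `InM` then `lg χ u` is. -/
def LAF_stmt : Prop := ∀ (p : ℕ) (M : Ideal (integralClosure ℤ ℂ)) (D : Type) [Group D] [Finite D]
  (X : Type) [Finite X] (Z : Subgroup D) (I : Subgroup (MulAut D)) (β d : X → D → ℂ) (n : D → ℤ),
  LAD p M Z I β d n → LAC M Z I β d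

end

end Pool.Agent.FI
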