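import Pool.Agent.helper12.FI.Defs

/-!
# Project fi (MP_baa4d7_al), block LA: basic facts on the characters of a finite abelian group (all proved)

`lv l u` is the value of the linear character `l : D →* ℂˣ` at `u`, `ov Z l₀` the finite set of the
characters with the same restriction to `Z` as `l₀`.
-/

set_option autoImplicit false

namespace Pool.Agent.FI

open Pool.Agent.GR

noncomputable section

/-- the value of a linear character -/
def lv {D : Type} [Group D] (l : D →* ℂˣ) (u : D) : ℂ := ((l u : ℂˣ) : ℂ)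

section

variable {D : Type} [Group D]

@[simp] theorem lv_one (l : D →* ℂˣ) : lv l 1 = 1 := by simp [lv]
theorem lv_mul (l : D →* ℂˣ) (u v : D) : lv l (u * v) = lv l u * lv l v := by simp [lv]
theorem lv_inv (l : D →* ℂˣ) (u : D) : lv l u⁻¹ = (lv l u)⁻¹ := by simp [lv]
theorem lv_pow (l : D →* ℂˣ) (u : D) (n : ℕ) : lv l (u ^ n) = lv l u ^ n := by simp [lv]
theorem lv_ne (l : D →* ℂˣ) (u : D) : lv l u ≠ 0 := (l u).ne_zero
@[simp] theorem lv_hone (u : D) : lv (1 : D →* ℂˣ) u = 1 := by simp [lv]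
theorem lv_hmul (l l' : D →* ℂˣ) (u : D) : lv (l * l') u = lv l u * lv l' u := by simp [lv]
theorem lv_hinv (l : D →* ℂˣ) (u : D) : lv l⁻¹ u = (lv l u)⁻¹ := by simp [lv]
theorem lv_inj {l l' : D →* ℂˣ} (h : ∀ u, lv l u = lv l' u) : l = l' :=
  MonoidHom.ext fun u => Units.ext (h u)

theorem lv_pow_card [Finite D] (l : D →* ℂˣ) (u : D) : lv l u ^ Nat.card D = 1 := by
  rw [← lv_pow, pow_card_eq_one', lv_one]

theorem norm_lv [Finite D] (l : D →* ℂˣ) (u : D) : ‖lv l u‖ = 1 :=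
  Complex.norm_eq_one_of_pow_eq_one (lv_pow_card l u) Nat.card_pos.ne'

theorem star_lv [Finite D] (l : D →* ℂˣ) (u : D) : (starRingEnd ℂ) (lv l u) = lv l u⁻¹ := by
  rw [lv_inv, Complex.inv_def, Complex.normSq_eq_norm_sq, norm_lv]
  simp

/-- the character `u ↦ l (t u)` -/
def tw (t : MulAut D) (l : D →* ℂˣ) : D →* ℂˣ := l.comp (MulEquiv.toMonoidHom t)

@[simp] theorem lv_tw (t : MulAut D) (l : D →* ℂˣ) (u : D) : lv (tw t l) u = lv l (t u) := rfl

@[simp] theorem tw_one (l : D →* ℂˣ) : tw (1 : MulAut D) l = l := lv_inj fun _ => rfl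

theorem tw_mul (t t' : MulAut D) (l : D →* ℂˣ) : tw (t * t') l = tw t' (tw t l) := lv_inj fun _ => rfl

theorem tw_injective (t : MulAut D) : Function.Injective (tw t : (D →* ℂˣ) → (D →* ℂˣ)) := by
  intro l l' h
  refine lv_inj fun u => ?_
  have h1 := congrArg (fun k => lv k (t⁻¹ u)) h
  simpa using h1

theorem lv_int [Finite D] (l : D →* ℂˣ) (u : D) : IsIntegral ℤ (lv l u) := by
  refine IsIntegral.of_pow (n := Nat.card D) Nat.card_pos ?_
  rw [lv_pow_card]
  exact isIntegral_one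

end

section

variable {D : Type} [CommGroup D] [Finite D]

instance lch_finite : Finite (D →* ℂˣ) := by
  have : NeZero (Monoid.exponent D) := ⟨Monoid.exponent_ne_zero_of_finite⟩
  infer_instance

theorem exists_lv_ne {u : D} (h : u ≠ 1) : ∃ l : D →* ℂˣ, lv l u ≠ 1 := by
  have : NeZero (Monoid.exponent D) := ⟨Monoid.exponent_ne_zero_of_finite⟩
  obtain ⟨l, hl⟩ := CommGroup.exists_apply_ne_one_of_hasEnoughRootsOfUnity D ℂ h
  exact ⟨l, fun h1 => hl (Units.ext h1)⟩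

theorem card_lch : Nat.card (D →* ℂˣ) = Nat.card D := by
  have : NeZero (Monoid.exponent D) := ⟨Monoid.exponent_ne_zero_of_finite⟩
  exact CommGroup.card_monoidHom_of_hasEnoughRootsOfUnity D ℂ

/-- every character of a subgroup extends -/
theorem exists_ext (Z : Subgroup D) (v : Z →* ℂˣ) : ∃ l : D →* ℂˣ, ∀ z : Z, lv l z = lv v z := by
  have : NeZero (Monoid.exponent D) := ⟨Monoid.exponent_ne_zero_of_finite⟩
  obtain ⟨l, hl⟩ := MonoidHom.domRestrict_surjective ℂ Z v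
  refine ⟨l, fun z => ?_⟩
  rw [← hl]
  rfl

open Classical in
theorem sum_lv [Fintype D] (l : D →* ℂˣ) : ∑ u, lv l u = if l = 1 then (Nat.card D : ℂ) else 0 := by
  split_ifs with h
  · subst h
    simp
  · obtain ⟨v, hv⟩ : ∃ v, lv l v ≠ 1 := by
      by_contra hn
      push Not at hn
      exact h (lv_inj fun u => by rw [hn u, lv_hone])
    have h1 : ∑ u, lv l u = lv l v * ∑ u, lv l u := by
      rw [Finset.mul_sum, ← Equiv.sum_comp (Equiv.mulLeft v)]
      exact Finset.sum_congr rfl fun u _ => lv_mul l v u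
    have h2 : (lv l v - 1) * ∑ u, lv l u = 0 := by linear_combination -h1
    exact (mul_eq_zero.1 h2).resolve_left (sub_ne_zero.2 hv)

open Classical in
theorem sum_hlv [Fintype (D →* ℂˣ)] (u : D) :
    ∑ l : D →* ℂˣ, lv l u = if u = 1 then (Nat.card D : ℂ) else 0 := by
  split_ifs with h
  · subst h
    simp [← Nat.card_eq_fintype_card, card_lch]
  · obtain ⟨k, hk⟩ := exists_lv_ne h
    have h1 : ∑ l : D →* ℂˣ, lv l u = lv k u * ∑ l : D →* ℂˣ, lv l u := by
      rw [Finset.mul_sum, ← Equiv.sum_comp (Equiv.mulLeft k)]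
      exact Finset.sum_congr rfl fun l _ => lv_hmul k l u
    have h2 : (lv k u - 1) * ∑ l : D →* ℂˣ, lv l u = 0 := by linear_combination -h1
    exact (mul_eq_zero.1 h2).resolve_left (sub_ne_zero.2 hk)

open Classical in
/-- orthogonality -/
theorem sum_lv_lv [Fintype D] (l l' : D →* ℂˣ) :
    ∑ u, lv l u * lv l' u⁻¹ = if l = l' then (Nat.card D : ℂ) else 0 := by
  have h := sum_lv (l * l'⁻¹)
  have h1 : ∑ u, lv l u * lv l' u⁻¹ = ∑ u, lv (l * l'⁻¹) u :=
    Finset.sum_congr rfl fun u _ => by rw [lv_hmul, lv_hinv, lv_inv]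
  rw [h1, h]
  by_cases h2 : l = l'
  · subst h2
    rw [if_pos rfl, if_pos (mul_inv_cancel l)]
  · rw [if_neg h2, if_neg fun h3 => h2 (mul_inv_eq_one.1 h3)]

open Classical in
/-- orthogonality -/
theorem sum_hlv_lv [Fintype (D →* ℂˣ)] (u v : D) :
    ∑ l : D →* ℂˣ, lv l u * lv l v⁻¹ = if u = v then (Nat.card D : ℂ) else 0 := by
  have h := sum_hlv (u * v⁻¹)
  have h1 : ∑ l : D →* ℂˣ, lv l u * lv l v⁻¹ = ∑ l : D →* ℂˣ, lv l (u * v⁻¹) :=
    Finset.sum_congr rfl fun l _ => by rw [lv_mul]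
  rw [h1, h]
  by_cases h2 : u = v
  · subst h2
    rw [if_pos rfl, if_pos (mul_inv_cancel u)]
  · rw [if_neg h2, if_neg fun h3 => h2 (mul_inv_eq_one.1 h3)]

open Classical in
/-- the characters with the same restriction to `Z` as `l₀` -/
def ov [Fintype (D →* ℂˣ)] (Z : Subgroup D) (l₀ : D →* ℂˣ) : Finset (D →* ℂˣ) :=
  Finset.univ.filter fun l => ∀ z ∈ Z, lv l z = lv l₀ z

theorem mem_ov [Fintype (D →* ℂˣ)] {Z : Subgroup D} {l₀ l : D →* ℂˣ} :
    l ∈ ov Z l₀ ↔ ∀ z ∈ Z, lv l z = lv l₀ z := by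
  simp [ov]

theorem self_mem_ov [Fintype (D →* ℂˣ)] {Z : Subgroup D} {l₀ : D →* ℂˣ} : l₀ ∈ ov Z l₀ :=
  mem_ov.2 fun _ _ => rfl

theorem card_ov [Fintype (D →* ℂˣ)] (Z : Subgroup D) (l₀ : D →* ℂˣ) : (ov Z l₀).card = Z.index := by
  have : NeZero (Monoid.exponent D) := ⟨Monoid.exponent_ne_zero_of_finite⟩
  have h := CommGroup.card_domRestrictHom_ker (G := D) ℂ Z
  rw [Subgroup.index, ← h, ← Nat.subtype_card (ov Z l₀) (fun l => mem_ov)]
  refine Nat.card_congr ⟨fun l => ⟨l₀⁻¹ * l.1, ?_⟩, fun k => ⟨l₀ * k.1, ?_⟩, fun l => ?_, fun k => ?_⟩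
  · rw [MonoidHom.mem_ker]
    refine MonoidHom.ext fun z => Units.ext ?_
    have h1 := l.2 z z.2
    change lv (l₀⁻¹ * l.1) (z : D) = 1
    rw [lv_hmul, lv_hinv, h1, inv_mul_cancel₀ (lv_ne _ _)]
  · intro z hz
    have h1 : MonoidHom.domRestrictHom Z ℂˣ k.1 = 1 := k.2
    have h2 : lv k.1 z = 1 := by
      have h3 := congrArg (fun f : Z →* ℂˣ => ((f ⟨z, hz⟩ : ℂˣ) : ℂ)) h1
      exact h3
    rw [lv_hmul, h2, mul_one]
  · exact Subtype.ext (mul_inv_cancel_left l₀ l.1)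
  · exact Subtype.ext (inv_mul_cancel_left l₀ k.1)

/-- the sum of the characters over the restriction of `l₀` to `Z` vanishes outside `Z` -/
theorem sum_ov [Fintype (D →* ℂˣ)] (Z : Subgroup D) (l₀ : D →* ℂˣ) (u : D) (hu : u ∉ Z) :
    ∑ l ∈ ov Z l₀, lv l u = 0 := by
  have : NeZero (Monoid.exponent D) := ⟨Monoid.exponent_ne_zero_of_finite⟩
  obtain ⟨k, hk, hku⟩ : ∃ k : D →* ℂˣ, (∀ z ∈ Z, k z = 1) ∧ k u ≠ 1 := by
    by_contra hn
    push Not at hn
    exact hu ((CommGroup.forall_monoidHom_apply_eq_one_iff ℂ Z u).1 fun φ h => hn φ h)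
  have hk' : ∀ z ∈ Z, lv k z = 1 := fun z hz => by simp [lv, hk z hz]
  have h1 : ∑ l ∈ ov Z l₀, lv l u = lv k u * ∑ l ∈ ov Z l₀, lv l u := by
    rw [Finset.mul_sum]
    refine Finset.sum_nbij' (fun l => k⁻¹ * l) (fun l => k * l) ?_ ?_ ?_ ?_ ?_
    · intro l hl
      rw [mem_ov] at hl ⊢
      intro z hz
      rw [lv_hmul, lv_hinv, hk' z hz, hl z hz, inv_one, one_mul]
    · intro l hl
      rw [mem_ov] at hl ⊢
      intro z hz
      rw [lv_hmul, hk' z hz, hl z hz, one_mul]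
    · intro l _
      exact mul_inv_cancel_left k l
    · intro l _
      exact inv_mul_cancel_left k l
    · intro l _
      rw [lv_hmul, lv_hinv, mul_inv_cancel_left₀ (lv_ne k u)]
  have h2 : (lv k u - 1) * ∑ l ∈ ov Z l₀, lv l u = 0 := by linear_combination -h1
  refine (mul_eq_zero.1 h2).resolve_left (sub_ne_zero.2 fun h3 => hku (Units.ext h3))

theorem _root_.Pool.Agent.GR.InM.intCast {p : ℕ} {M : Ideal (integralClosure ℤ ℂ)} (h : Setup p M) (n : ℤ) :
    InM M (n : ℂ) ↔ (p : ℤ) ∣ n := by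
  rw [Int.natCast_dvd, ← InM.natCast h]
  rcases Int.natAbs_eq n with h1 | h1
  · have h2 : (n : ℂ) = (n.natAbs : ℂ) := by
      have := congrArg (fun k : ℤ => (k : ℂ)) h1
      simpa using this
    rw [h2]
  · have h2 : (n : ℂ) = -(n.natAbs : ℂ) := by
      have := congrArg (fun k : ℤ => (k : ℂ)) h1
      simpa using this
    rw [h2]
    exact ⟨fun h3 => by simpa using h3.neg, fun h3 => h3.neg⟩

theorem _root_.Pool.Agent.GR.IntAt.intCast {p : ℕ} {M : Ideal (integralClosure ℤ ℂ)} (h : Setup p M) (n : ℤ) :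
    IntAt M (n : ℂ) :=
  IntAt.of_isIntegral h (by
    have := isIntegral_algebraMap (R := ℤ) (A := ℂ) (x := n)
    simpa using this)

theorem lv_modM {p : ℕ} {M : Ideal (integralClosure ℤ ℂ)} (h : Setup p M) (hp : IsPGroup p D)
    (l : D →* ℂˣ) (u : D) : InM M (lv l u - 1) := by
  have : Fact p.Prime := ⟨h.pr⟩
  obtain ⟨k, hk⟩ := hp.exists_card_eq
  have h1 : lv l u ^ p ^ k = 1 := by rw [← hk, lv_pow_card]
  let a : integralClosure ℤ ℂ := ⟨lv l u, lv_int l u⟩
  have ha : a ^ p ^ k = 1 := Subtype.ext (by push_cast; exact h1)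
  obtain ⟨r, hr⟩ := exists_add_pow_prime_pow_eq h.pr (a - 1) 1 k
  rw [sub_add_cancel, ha, one_pow] at hr
  have h2 : (a - 1) ^ p ^ k = (p : integralClosure ℤ ℂ) * (-((a - 1) * 1 * r)) := by
    linear_combination -hr
  have h3 : (a - 1) ^ p ^ k ∈ M := by
    rw [h2]
    exact M.mul_mem_right _ h.mem
  have h4 : a - 1 ∈ M := h.prime.mem_of_pow_mem _ h3
  have h5 := InM.coe h h4
  exact h5

end

end

end Pool.Agent.FI
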