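import Pool.Agent.helper95.FI.SpecT

/-!
# fi:BDY: pairs with `ac z w` in a short interval
-/

set_option autoImplicit false

open Finset

noncomputable section

namespace Pool.Agent.FI

/-- Integers `x` with `c x` in an interval of length `2 Y`. -/
theorem BDY_int (S : Finset ℤ) (c t Y k : ℝ) (hk : 0 < k) (hc : k ≤ |c|) (hY : 0 ≤ Y)
    (h : ∀ x ∈ S, |c * x - t| ≤ Y) : (#S : ℝ) ≤ 2 * (Y / k) + 1 := by
  have hc0 : 0 < |c| := hk.trans_le hc
  have hc0' : c ≠ 0 := abs_pos.1 hc0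
  have hsub : S ⊆ Icc ⌈t / c - Y / |c|⌉ ⌊t / c + Y / |c|⌋ := by
    intro x hx
    have h1 := h x hx
    have h2 : |(x : ℝ) - t / c| ≤ Y / |c| := by
      rw [le_div_iff₀ hc0, ← abs_mul]
      have e : ((x : ℝ) - t / c) * c = c * x - t := by
        field_simp
      rw [e]
      exact h1
    rw [abs_le] at h2
    rw [mem_Icc]
    constructor
    · rw [Int.ceil_le]
      linarith [h2.1]
    · rw [Int.le_floor]
      linarith [h2.2]
  have h1 : (#S : ℝ) ≤ (#(Icc ⌈t / c - Y / |c|⌉ ⌊t / c + Y / |c|⌋) : ℝ) := by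
    exact_mod_cast card_le_card hsub
  rw [Int.card_Icc] at h1
  have h2 : Y / |c| ≤ Y / k := div_le_div_of_nonneg_left hY hk hc
  have h3 : 0 ≤ Y / |c| := by positivity
  have h4 : (((⌊t / c + Y / |c|⌋ + 1 - ⌈t / c - Y / |c|⌉).toNat : ℕ) : ℝ) ≤ 2 * (Y / |c|) + 1 := by
    have h5 : (((⌊t / c + Y / |c|⌋ + 1 - ⌈t / c - Y / |c|⌉).toNat : ℤ) : ℝ) ≤ 2 * (Y / |c|) + 1 := by
      rcases le_total 0 (⌊t / c + Y / |c|⌋ + 1 - ⌈t / c - Y / |c|⌉) with h6 | h6
      · rw [Int.toNat_of_nonneg h6]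
        push_cast
        have h7 := Int.floor_le (t / c + Y / |c|)
        have h8 := Int.le_ceil (t / c - Y / |c|)
        linarith
      · rw [Int.toNat_of_nonpos h6]
        push_cast
        linarith
    exact_mod_cast h5
  linarith

/-- The number of `w` in the box with a linear form in a short interval, one coefficient is large. -/
theorem BDY_box (R : ℕ) (c d T : ℤ) (Y k : ℝ) (hR : 1 ≤ R) (hk : 0 < k)
    (hc : k ≤ |(c : ℝ)| ∨ k ≤ |(d : ℝ)|) (hY : 0 ≤ Y) :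
    (∑ w ∈ Bx R, if |((c * w.1 + d * w.2 : ℤ) : ℝ) - T| ≤ Y then (1 : ℝ) else 0) ≤ 6 * (R * (Y / k + 1)) := by
  have hR' : (1 : ℝ) ≤ R := by exact_mod_cast hR
  have hcard : (#(Icc (-(R : ℤ)) R) : ℝ) = 2 * R + 1 := by
    rw [Int.card_Icc]
    have e : ((R : ℤ) + 1 - -(R : ℤ)) = ((2 * R + 1 : ℕ) : ℤ) := by
      push_cast
      ring
    rw [e, Int.toNat_natCast]
    push_cast
    ring
  have h0 : 0 ≤ Y / k := by positivity
  have hfin : (2 * (R : ℝ) + 1) * (2 * (Y / k) + 1) ≤ 6 * (R * (Y / k + 1)) := by nlinarith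
  have hone : ∀ (c t : ℝ), k ≤ |c| → ∑ x ∈ Icc (-(R : ℤ)) R, (if |c * x - t| ≤ Y then (1 : ℝ) else 0) ≤
      2 * (Y / k) + 1 := by
    intro c t hc
    rw [← Finset.natCast_card_filter]
    exact BDY_int _ c t Y k hk hc hY fun x hx => (mem_filter.1 hx).2
  rcases hc with hc | hc
  · unfold Bx
    rw [sum_product_right]
    refine le_trans (sum_le_sum (g := fun _ => 2 * (Y / k) + 1) fun v _ => ?_) ?_
    · refine le_trans (le_of_eq ?_) (hone c (T - d * v) hc)
      refine sum_congr rfl fun u _ => ?_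
      have e : ((c * u + d * v : ℤ) : ℝ) - T = (c : ℝ) * u - (T - d * v) := by
        push_cast
        ring
      rw [e]
    · rw [sum_const, nsmul_eq_mul, hcard]
      exact hfin
  · unfold Bx
    rw [sum_product]
    refine le_trans (sum_le_sum (g := fun _ => 2 * (Y / k) + 1) fun u _ => ?_) ?_
    · refine le_trans (le_of_eq ?_) (hone d (T - c * u) hc)
      refine sum_congr rfl fun v _ => ?_
      have e : ((c * u + d * v : ℤ) : ℝ) - T = (d : ℝ) * v - (T - c * u) := by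
        push_cast
        ring
      rw [e]
    · rw [sum_const, nsmul_eq_mul, hcard]
      exact hfin

/-- One of the coefficients is at least `√N`. -/
theorem BDY_coef (N : ℕ) (z : ℤ × ℤ) (h : N < nn z) : √(N : ℝ) ≤ |((z.1 : ℤ) : ℝ)| ∨ √(N : ℝ) ≤ |((8 * z.2 : ℤ) : ℝ)| := by
  have h1 : (N : ℤ) < |z.1 ^ 2 - 8 * z.2 ^ 2| := by
    have : ((nn z : ℕ) : ℤ) = |z.1 ^ 2 - 8 * z.2 ^ 2| := by
      unfold nn N8
      exact Int.natCast_natAbs _
    rw [← this]
    exact_mod_cast h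
  have h2 : (N : ℤ) ≤ z.1 ^ 2 ∨ (N : ℤ) ≤ (8 * z.2) ^ 2 := by
    rcases lt_abs.1 h1 with h3 | h3
    · left
      nlinarith [sq_nonneg z.2]
    · right
      nlinarith [sq_nonneg z.1, sq_nonneg z.2]
  rcases h2 with h3 | h3
  · left
    apply Real.sqrt_le_iff.2
    refine ⟨abs_nonneg _, ?_⟩
    rw [sq_abs]
    exact_mod_cast h3
  · right
    apply Real.sqrt_le_iff.2
    refine ⟨abs_nonneg _, ?_⟩
    rw [sq_abs]
    exact_mod_cast h3

theorem BDY (hFFC : FFC_stmt) : BDY_stmt := by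
  classical
  refine ⟨300, by norm_num, fun N R hN hR T Y hY => ?_⟩
  have hN0 : (0 : ℝ) < N := by exact_mod_cast hN
  have hs : 0 < √(N : ℝ) := Real.sqrt_pos.2 hN0
  have hZ : (#(ZD N) : ℝ) ≤ 50 * N := by
    have h1 : #(ZD N) ≤ #(FF (2 * N)) := card_le_card (filter_subset _ _)
    have h2 := (hFFC (2 * N)).1
    have h3 : (#(ZD N) : ℝ) ≤ (#(FF (2 * N)) : ℝ) := by exact_mod_cast h1
    push_cast at h2
    linarith
  have h0 : 0 ≤ Y / √(N : ℝ) := by positivity
  rw [Finset.natCast_card_filter, sum_product]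
  refine le_trans (sum_le_sum (g := fun _ => 6 * (R * (Y / √(N : ℝ) + 1))) fun z hz => ?_) ?_
  · have hz' : N < nn z := (mem_filter.1 hz).2.1
    exact BDY_box R z.1 (8 * z.2) T Y (√(N : ℝ)) hR hs (BDY_coef N z hz') hY
  · rw [sum_const, nsmul_eq_mul]
    have h1 : 0 ≤ (R : ℝ) * (Y / √(N : ℝ) + 1) := by positivity
    calc (#(ZD N) : ℝ) * (6 * (R * (Y / √(N : ℝ) + 1))) ≤ 50 * N * (6 * (R * (Y / √(N : ℝ) + 1))) :=
          mul_le_mul_of_nonneg_right hZ (by positivity)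
      _ = 300 * N * (R * (Y / √(N : ℝ) + 1)) := by ring

end Pool.Agent.FI
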