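import Pool.Agent.helper40.FI.SpecLA

set_option autoImplicit false

namespace Pool.Agent.FI

open Pool.Agent.GR

theorem LFI : LFI_stmt := by
  classical
  intro D _ _ _ X _ Z g l₀ A hA χ hχ u hu
  have hD : (Nat.card D : ℂ) ≠ 0 := by exact_mod_cast Nat.card_pos.ne'
  -- the coefficients
  have hinv : (Nat.card D : ℂ) * g χ u = ∑ l : D →* ℂˣ, (∑ v, g χ v * lv l v⁻¹) * lv l u := by
    have h1 : ∀ l : D →* ℂˣ, (∑ v, g χ v * lv l v⁻¹) * lv l u = ∑ v, g χ v * (lv l u * lv l v⁻¹) := by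
      intro l
      rw [Finset.sum_mul]
      exact Finset.sum_congr rfl fun v _ => by ring
    rw [Finset.sum_congr rfl fun l _ => h1 l, Finset.sum_comm]
    have h2 : ∀ v, ∑ l : D →* ℂˣ, g χ v * (lv l u * lv l v⁻¹) = if u = v then (Nat.card D : ℂ) * g χ u else 0 := by
      intro v
      rw [← Finset.mul_sum, sum_hlv_lv]
      split_ifs with h
      · subst h
        ring
      · ring
    rw [Finset.sum_congr rfl fun v _ => h2 v, Finset.sum_ite_eq]
    simp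
  have hzero : ∀ l : D →* ℂˣ, l ∉ ov Z l₀ → ∑ v, g χ v * lv l v⁻¹ = 0 := by
    intro l hl
    rw [mem_ov] at hl
    push Not at hl
    obtain ⟨z, hz, hne⟩ := hl
    have h1 : ∑ v, g χ v * lv l v⁻¹ = lv l₀ z * (lv l z)⁻¹ * ∑ v, g χ v * lv l v⁻¹ := by
      conv_lhs => rw [← Equiv.sum_comp (Equiv.mulLeft z)]
      rw [Finset.mul_sum]
      refine Finset.sum_congr rfl fun v _ => ?_
      rw [Equiv.coe_mulLeft, mem_lX.1 hχ z hz v, lv_inv, lv_mul, mul_inv, ← lv_inv l v]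
      ring
    have h2 : (1 - lv l₀ z * (lv l z)⁻¹) * ∑ v, g χ v * lv l v⁻¹ = 0 := by linear_combination h1
    refine (mul_eq_zero.1 h2).resolve_left fun h3 => hne ?_
    have h4 : lv l₀ z * (lv l z)⁻¹ = 1 := by linear_combination -h3
    exact ((mul_inv_eq_one₀ (lv_ne _ _)).1 h4).symm
  have hover : ∀ l ∈ ov Z l₀, ∑ v, g χ v * lv l v⁻¹ = ∑ v, g χ v * lv l₀ v⁻¹ + (Nat.card D : ℂ) * (A χ l : ℂ) := by
    intro l hl
    rw [← hA χ l hl, ← Finset.sum_add_distrib]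
    exact Finset.sum_congr rfl fun v _ => by ring
  have hsum : ∑ l : D →* ℂˣ, (∑ v, g χ v * lv l v⁻¹) * lv l u = ∑ l ∈ ov Z l₀, (∑ v, g χ v * lv l v⁻¹) * lv l u := by
    refine (Finset.sum_subset (Finset.subset_univ _) fun l _ hl => ?_).symm
    rw [hzero l hl, zero_mul]
  rw [hsum, Finset.sum_congr rfl fun l hl => by rw [hover l hl, add_mul], Finset.sum_add_distrib, ← Finset.mul_sum,
    sum_ov Z l₀ u hu, mul_zero, zero_add] at hinv
  have h3 : ∑ l ∈ ov Z l₀, (Nat.card D : ℂ) * (A χ l : ℂ) * lv l u = (Nat.card D : ℂ) * ∑ l ∈ ov Z l₀, (A χ l : ℂ) * lv l u := by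
    rw [Finset.mul_sum]
    exact Finset.sum_congr rfl fun l _ => by ring
  rw [h3] at hinv
  exact mul_left_cancel₀ hD hinv

end Pool.Agent.FI
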