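import Pool.Agent.helper40.FI.SpecLA

set_option autoImplicit false

namespace Pool.Agent.FI

open Pool.Agent.GR

theorem LFR_pow {D : Type} [CommGroup D] (t : MulAut D) (u z : D) (hz : t z = z) (h : t u = u * z) (j : ℕ) :
    (t ^ j) u = u * z ^ j := by
  induction j with
  | zero => simp
  | succ j ih =>
    rw [pow_succ', MulAut.mul_apply, ih, map_mul, map_pow, hz, h, pow_succ', mul_assoc]

theorem LFR : LFR_stmt := by
  intro p D _ _ _ X _ Z I g l₀ l t hLG hFx hl hne ht htw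
  by_contra ht1
  apply hne
  have : Fact p.Prime := ⟨hLG.pr⟩
  have hkz : ∀ z ∈ Z, lv (l * l₀⁻¹) z = 1 := by
    intro z hz
    rw [lv_hmul, lv_hinv, mem_ov.1 hl z hz, mul_inv_cancel₀ (lv_ne _ _)]
  have hkt : ∀ u, lv (l * l₀⁻¹) (t u) = lv (l * l₀⁻¹) u := by
    intro u
    rw [lv_hmul, lv_hinv, lv_hmul, lv_hinv, hFx t ht u, ← lv_tw, htw]
  let f : D →* D := MonoidHom.mk' (fun u => u⁻¹ * t u) (by
    intro a b
    rw [map_mul, mul_inv]
    exact mul_mul_mul_comm _ _ _ _)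
  have hf : ∀ u, f u = u⁻¹ * t u := fun u => rfl
  have hker : f.ker = Z := by
    ext u
    rw [MonoidHom.mem_ker, hf, inv_mul_eq_one]
    constructor
    · intro h
      by_contra hu
      exact ht1 (hLG.fr t ht u hu h.symm)
    · intro h
      exact (hLG.fz t ht u h).symm
  have hdis : Disjoint f.range Z := by
    rw [Subgroup.disjoint_def]
    rintro z ⟨u, hu⟩ hz
    rw [hf, inv_mul_eq_iff_eq_mul] at hu
    have h1 := LFR_pow t u z (hLG.fz t ht z hz) hu (orderOf t)
    rw [pow_orderOf_eq_one, MulAut.one_apply] at h1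
    have h2 : z ^ orderOf t = 1 := by
      have := h1.symm
      rwa [mul_eq_left] at this
    have h3 : orderOf t ∣ Nat.card I := by
      have h4 := orderOf_dvd_natCard (⟨t, ht⟩ : I)
      rwa [Subgroup.orderOf_mk] at h4
    obtain ⟨k, hk⟩ := hLG.pg z
    have h5 : Nat.Coprime (p ^ k) (orderOf t) :=
      Nat.Coprime.pow_left k ((Nat.Prime.coprime_iff_not_dvd hLG.pr).2 fun h6 => hLG.cop (h6.trans h3))
    have h6 : orderOf z ∣ Nat.gcd (p ^ k) (orderOf t) :=
      Nat.dvd_gcd (orderOf_dvd_of_pow_eq_one hk) (orderOf_dvd_of_pow_eq_one h2)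
    rw [h5.gcd_eq_one, Nat.dvd_one, orderOf_eq_one_iff] at h6
    exact h6
  have hcard : Nat.card f.range * Nat.card Z = Nat.card D := by
    rw [← Subgroup.index_ker, hker, Subgroup.index_mul_card]
  have hcomp := Subgroup.isComplement'_of_card_mul_and_disjoint hcard hdis
  have hone : ∀ u, lv (l * l₀⁻¹) u = 1 := by
    intro u
    obtain ⟨⟨⟨a, ⟨v, hv⟩⟩, ⟨z, hz⟩⟩, haz⟩ := hcomp.surjective u
    simp only at haz
    rw [← haz, lv_mul, hkz z hz, ← hv, hf, lv_mul, lv_inv, hkt, inv_mul_cancel₀ (lv_ne _ _), mul_one]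
  refine lv_inj fun u => ?_
  have h := hone u
  rw [lv_hmul, lv_hinv] at h
  exact (mul_inv_eq_one₀ (lv_ne _ _)).1 h

end Pool.Agent.FI
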