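import Pool.Agent.helper40.FI.SpecLA

set_option autoImplicit false

namespace Pool.Agent.FI

open Pool.Agent.GR

theorem LIV : LIV_stmt := by
  intro p k δ hp hp2 hδ
  rcases Nat.eq_zero_or_pos k with rfl | hk
  · exact ⟨1, 0, fun s _ => by simp⟩
  have hodd : p % 2 = 1 := (hp.eq_two_or_odd).resolve_left hp2
  have hpk : (p ^ k) % 2 = 1 := by
    have := (Nat.odd_iff.2 hodd).pow (n := k)
    exact Nat.odd_iff.1 this
  obtain ⟨h, hh⟩ : ∃ h, 1 + p ^ k = 2 * h := ⟨(1 + p ^ k) / 2, by omega⟩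
  have hφ : 1 ≤ Nat.totient (p ^ k) := Nat.totient_pos.2 (pow_pos hp.pos k)
  obtain ⟨φ, hφ'⟩ := Nat.exists_eq_add_of_le hφ
  refine ⟨δ ^ (p ^ k), φ * h, fun s hs => ?_⟩
  have h1 : (p : ℤ) ^ k ∣ s ^ (p ^ k) - δ ^ (p ^ k) := by
    have h2 := dvd_sub_pow_of_dvd_sub hs k
    exact (pow_dvd_pow _ (Nat.le_succ k)).trans h2
  have hps : ¬ (p : ℤ) ∣ s := fun h2 => hδ ((dvd_sub_right h2).1 hs)
  have h3 : (p : ℤ) ^ k ∣ s ^ (Nat.totient (p ^ k)) - 1 := by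
    have hcop : IsCoprime s ((p ^ k : ℕ) : ℤ) := by
      push_cast
      refine IsCoprime.pow_right ?_
      have hpi : Prime (p : ℤ) := Nat.prime_iff_prime_int.1 hp
      exact (((Prime.coprime_iff_not_dvd hpi).2 hps)).symm
    have hu : IsUnit ((s : ℤ) : ZMod (p ^ k)) := (ZMod.coe_int_isUnit_iff_isCoprime s (p ^ k)).2 hcop.symm
    obtain ⟨x, hx⟩ := hu
    have h4 := ZMod.pow_totient x
    have h5 : ((s ^ (Nat.totient (p ^ k)) - 1 : ℤ) : ZMod (p ^ k)) = 0 := by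
      push_cast
      rw [← hx, ← Units.val_pow_eq_pow_val, h4, Units.val_one, sub_self]
    have h6 := (ZMod.intCast_zmod_eq_zero_iff_dvd _ _).1 h5
    rwa [Nat.cast_pow] at h6
  have h4 : (p : ℤ) ^ k ∣ (s ^ (Nat.totient (p ^ k))) ^ (2 * h) - 1 := by
    have := sub_dvd_pow_sub_pow (s ^ (Nat.totient (p ^ k))) 1 (2 * h)
    rw [one_pow] at this
    exact h3.trans this
  have h5 : s * δ ^ (p ^ k) * (s ^ 2) ^ (φ * h) - 1 =
      ((s ^ (Nat.totient (p ^ k))) ^ (2 * h) - 1) - s * (s ^ 2) ^ (φ * h) * (s ^ (p ^ k) - δ ^ (p ^ k)) := by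
    have h6 : (s ^ (Nat.totient (p ^ k))) ^ (2 * h) = s * (s ^ 2) ^ (φ * h) * s ^ (p ^ k) := by
      rw [← pow_mul, ← pow_mul, ← pow_succ', ← pow_add]
      congr 1
      rw [hφ']
      have : (1 + φ) * (2 * h) = 2 * h + 2 * (φ * h) := by ring
      rw [this, ← hh]
      ring
    rw [h6]
    ring
  rw [h5]
  exact dvd_sub h4 (Dvd.dvd.mul_left h1 _)

end Pool.Agent.FI
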