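import Pool.Agent.helper43.FI.LCG
import Pool.Agent.helper53.FI.LCO
import Pool.Agent.helper53.FI.LNU
import Pool.Agent.helper25.FI.LEP
import Pool.Agent.helper40.FI.LIV
import Pool.Agent.helper89.FI.LSM
import Pool.Agent.helper41.FI.LIA
import Pool.Agent.helper27.FI.LRU
import Pool.Agent.helper31.FI.LRA
import Pool.Agent.helper29.FI.LIN
import Pool.Agent.helper76.FI.LGG
import Pool.Agent.helper40.FI.LFR
import Pool.Agent.helper60.FI.LGK
import Pool.Agent.helper6.FI.LGM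
import Pool.Agent.helper40.FI.LFI
import Pool.Agent.helper54.FI.LQ0
import Pool.Agent.helper2.FI.LPC
import Pool.Agent.helper92.FI.LTO
import Pool.Agent.helper11.FI.LC1
import Pool.Agent.helper28.FI.LC2
import Pool.Agent.helper79.FI.LC3
import Pool.Agent.helper98.FI.LAF

/-!
# Project fi (MP_baa4d7_al), block LA: assembly of the rows
-/

set_option autoImplicit false

namespace Pool.Agent.FI

theorem aLA_LCG : LCG_stmt := LCG
theorem aLA_LCO : LCO_stmt := LCO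
theorem aLA_LNU : LNU_stmt := LNU aLA_LCG aLA_LCO
theorem aLA_LEP : LEP_stmt := LEP aLA_LNU aLA_LCO
theorem aLA_LIV : LIV_stmt := LIV
theorem aLA_LSM : LSM_stmt := LSM aLA_LCG aLA_LNU aLA_LIV
theorem aLA_LIA : LIA_stmt := LIA aLA_LSM aLA_LCO
theorem aLA_LRU : LRU_stmt := LRU
theorem aLA_LRA : LRA_stmt := LRA aLA_LCG aLA_LRU
theorem aLA_LIN : LIN_stmt := LIN aLA_LRA aLA_LIA
theorem aLA_LGG : LGG_stmt := LGG aLA_LIN
theorem aLA_LFR : LFR_stmt := LFR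
theorem aLA_LGK : LGK_stmt := LGK
theorem aLA_LGM : LGM_stmt := LGM aLA_LGK
theorem aLA_LFI : LFI_stmt := LFI
theorem aLA_LQ0 : LQ0_stmt := LQ0
theorem aLA_LPC : LPC_stmt := LPC aLA_LQ0 aLA_LFI aLA_LFR
theorem aLA_LTO : LTO_stmt := LTO aLA_LGM aLA_LFR
theorem aLA_LC1 : LC1_stmt := LC1 aLA_LPC aLA_LTO
theorem aLA_LC2 : LC2_stmt := LC2 aLA_LPC aLA_LFI
theorem aLA_LC3 : LC3_stmt := LC3 aLA_LPC aLA_LTO aLA_LFI aLA_LFR
theorem aLA_LAF : LAF_stmt := LAF aLA_LEP aLA_LGG aLA_LC1 aLA_LC2 aLA_LC3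

end Pool.Agent.FI
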